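import Mathlib

open Finset

namespace Pool.Agent.Results.MP_fffc5a_co.BalancedExact

/-- `F` is `(u, v)`-union-intersecting: the union of any `u` distinct members meets the union of
any `v` distinct members. -/
def UnionIntersecting {n : ℕ} (u v : ℕ) (F : Finset (Finset (Fin n))) : Prop :=
  ∀ A ⊆ F, ∀ B ⊆ F, A.card = u → B.card = v → ((A.biUnion id) ∩ (B.biUnion id)).Nonempty

section Counting

variable {n : ℕ}

/-- Members of `F` inside `X`. -/
def ins (F : Finset (Finset (Fin n))) (X : Finset (Fin n)) : Finset (Finset (Fin n)) :=
  F.filter fun A => A ⊆ X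

lemma ins_subset_powersetCard {k : ℕ} {F : Finset (Finset (Fin n))}
    (hF : ∀ A ∈ F, A.card = k) (X : Finset (Fin n)) : ins F X ⊆ powersetCard k X := by
  intro A hA
  rw [ins, mem_filter] at hA
  rw [mem_powersetCard]
  exact ⟨hA.2, hF A hA.1⟩

lemma card_ins_le {k : ℕ} {F : Finset (Finset (Fin n))}
    (hF : ∀ A ∈ F, A.card = k) (X : Finset (Fin n)) : (ins F X).card ≤ X.card.choose k := by
  rw [← card_powersetCard]
  exact card_le_card (ins_subset_powersetCard hF X)

/-- Superset count. -/
lemma card_supersets (a : ℕ) (A : Finset (Fin n)) (hA : A.card ≤ a) :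
    ((powersetCard a (univ : Finset (Fin n))).filter fun X => A ⊆ X).card =
      (n - A.card).choose (a - A.card) := by
  have h : ((powersetCard a (univ : Finset (Fin n))).filter fun X => A ⊆ X).card =
      (powersetCard (a - A.card) Aᶜ).card := by
    refine card_nbij' (fun X => X \ A) (fun Y => Y ∪ A) ?_ ?_ ?_ ?_
    · intro X hX
      simp only [coe_filter, mem_powersetCard, subset_univ, true_and, Set.mem_ofPred_eq] at hX
      rw [mem_coe, mem_powersetCard]
      refine ⟨?_, ?_⟩
      · intro x hx
        rw [mem_compl]
        exact (mem_sdiff.1 hx).2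
      · rw [card_sdiff_of_subset hX.2, hX.1]
    · intro Y hY
      simp only [mem_coe, mem_powersetCard] at hY
      simp only [coe_filter, mem_powersetCard, subset_univ, true_and, Set.mem_ofPred_eq]
      refine ⟨?_, subset_union_right⟩
      rw [card_union_of_disjoint, hY.2]
      · omega
      · rw [disjoint_left]
        intro x hx hxA
        have := hY.1 hx
        rw [mem_compl] at this
        exact this hxA
    · intro X hX
      simp only [coe_filter, mem_powersetCard, subset_univ, true_and, Set.mem_ofPred_eq] at hX
      exact sdiff_union_of_subset hX.2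
    · intro Y hY
      simp only [mem_coe, mem_powersetCard] at hY
      ext x
      simp only [mem_sdiff, mem_union]
      constructor
      · rintro ⟨h1 | h1, h2⟩
        · exact h1
        · exact absurd h1 h2
      · intro hx
        have := hY.1 hx
        rw [mem_compl] at this
        exact ⟨Or.inl hx, this⟩
  rw [h, card_powersetCard, card_compl, Fintype.card_fin]

lemma card_avoiding (a : ℕ) (A : Finset (Fin n)) :
    ((powersetCard a (univ : Finset (Fin n))).filter fun X => A ⊆ Xᶜ).card =
      (n - A.card).choose a := by
  have h : ((powersetCard a (univ : Finset (Fin n))).filter fun X => A ⊆ Xᶜ) =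
      powersetCard a Aᶜ := by
    ext X
    simp only [mem_filter, mem_powersetCard, subset_univ, true_and]
    rw [subset_compl_comm]
    tauto
  rw [h, card_powersetCard, card_compl, Fintype.card_fin]

/-- Double counting. -/
lemma sum_weights (k a α β : ℕ) (F : Finset (Finset (Fin n))) (hF : ∀ A ∈ F, A.card = k)
    (hka : k ≤ a) :
    ∑ X ∈ powersetCard a (univ : Finset (Fin n)), (α * (ins F X).card + β * (ins F Xᶜ).card) =
      F.card * (α * (n - k).choose (a - k) + β * (n - k).choose a) := by
  have h1 : ∑ X ∈ powersetCard a (univ : Finset (Fin n)), (ins F X).card =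
      F.card * (n - k).choose (a - k) := by
    simp only [ins, card_filter]
    rw [sum_comm]
    rw [← smul_eq_mul, ← sum_const]
    refine sum_congr rfl fun A hA => ?_
    rw [← card_filter, card_supersets a A (by rw [hF A hA]; exact hka), hF A hA]
  have h2 : ∑ X ∈ powersetCard a (univ : Finset (Fin n)), (ins F Xᶜ).card =
      F.card * (n - k).choose a := by
    simp only [ins, card_filter]
    rw [sum_comm]
    rw [← smul_eq_mul, ← sum_const]
    refine sum_congr rfl fun A hA => ?_
    rw [← card_filter, card_avoiding a A, hF A hA]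
  rw [sum_add_distrib, ← mul_sum, ← mul_sum, h1, h2]
  ring

end Counting

/-- The extremal family: all `k`-sets avoiding the point `z`. -/
def base {n : ℕ} (k : ℕ) (z : Fin n) : Finset (Finset (Fin n)) := powersetCard k (univ.erase z)

lemma ins_base {n : ℕ} (k : ℕ) (z : Fin n) (X : Finset (Fin n)) :
    ins (base k z) X = powersetCard k (X.erase z) := by
  ext A
  simp only [ins, base, mem_filter, mem_powersetCard]
  constructor
  · rintro ⟨⟨h1, h2⟩, h3⟩
    refine ⟨fun x hx => ?_, h2⟩
    rw [mem_erase]
    exact ⟨(mem_erase.1 (h1 hx)).1, h3 hx⟩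
  · rintro ⟨h1, h2⟩
    refine ⟨⟨fun x hx => ?_, h2⟩, fun x hx => (mem_erase.1 (h1 hx)).2⟩
    rw [mem_erase]
    exact ⟨(mem_erase.1 (h1 hx)).1, mem_univ x⟩

lemma choose_succ_pred {m k : ℕ} (hm : 1 ≤ m) (hk : 1 ≤ k) :
    m.choose k = (m - 1).choose (k - 1) + (m - 1).choose k := by
  obtain ⟨m, rfl⟩ : ∃ m', m = m' + 1 := ⟨m - 1, by omega⟩
  obtain ⟨k, rfl⟩ : ∃ k', k = k' + 1 := ⟨k - 1, by omega⟩
  simp [Nat.choose_succ_succ]

lemma large_union {n k s u : ℕ} {A : Finset (Finset (Fin n))} (hA : ∀ S ∈ A, S.card = k)
    (hs : 1 ≤ s) (hu : (s - 1).choose k + 1 ≤ u) (hc : A.card = u) :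
    s ≤ (A.biUnion id).card := by
  by_contra hlt
  push Not at hlt
  have hsub : A ⊆ powersetCard k (A.biUnion id) := by
    intro S hS
    rw [mem_powersetCard]
    exact ⟨subset_biUnion_of_mem id hS, hA S hS⟩
  have h1 := card_le_card hsub
  rw [card_powersetCard, hc] at h1
  have h2 : (A.biUnion id).card.choose k ≤ (s - 1).choose k :=
    Nat.choose_le_choose k (by omega)
  omega

theorem result (k a b v : ℕ) (hk : 1 ≤ k) (ha : k ≤ a) (hab : a ≤ b)
    (hv : v = (b - 1).choose k + 1 ∨
      (a = b ∧ (a - 1).choose k + 1 ≤ v ∧ 2 * (v - 1) ≤ (a - 1).choose k + a.choose k)) :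
    IsGreatest {c : ℕ | ∃ F : Finset (Finset (Fin (a + b))),
      (∀ A ∈ F, A.card = k) ∧ UnionIntersecting ((a - 1).choose k + 1) v F ∧ F.card = c}
      ((a + b - 1).choose k) := by
  have hpos : 0 < a + b := by omega
  let z : Fin (a + b) := ⟨0, hpos⟩
  have hbase : ∀ A ∈ base k z, A.card = k := fun A hA => (mem_powersetCard.1 hA).2
  have hbcard : (base k z).card = (a + b - 1).choose k := by
    rw [base, card_powersetCard, card_erase_of_mem (mem_univ z), card_univ, Fintype.card_fin]
  constructor
  · refine ⟨base k z, hbase, ?_, hbcard⟩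
    intro A hA B hB hAc hBc
    by_contra hne
    rw [not_nonempty_iff_eq_empty, ← disjoint_iff_inter_eq_empty] at hne
    have h1 : a ≤ (A.biUnion id).card :=
      large_union (fun S hS => hbase S (hA hS)) (by omega) le_rfl hAc
    have h2 : b ≤ (B.biUnion id).card := by
      refine large_union (fun S hS => hbase S (hB hS)) (by omega) ?_ hBc
      rcases hv with rfl | ⟨rfl, h, -⟩
      · exact le_rfl
      · exact h
    have h3 : (A.biUnion id) ∪ (B.biUnion id) ⊆ univ.erase z := by
      apply union_subset
      · intro x hx
        rw [mem_biUnion] at hx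
        obtain ⟨S, hS, hxS⟩ := hx
        exact (mem_powersetCard.1 (hA hS)).1 hxS
      · intro x hx
        rw [mem_biUnion] at hx
        obtain ⟨S, hS, hxS⟩ := hx
        exact (mem_powersetCard.1 (hB hS)).1 hxS
    have h4 := card_le_card h3
    rw [card_union_of_disjoint hne, card_erase_of_mem (mem_univ z), card_univ,
      Fintype.card_fin] at h4
    omega
  · rintro c ⟨F, hF, hui, rfl⟩
    rw [← hbcard]
    set α := (b - 1).choose (k - 1) with hα
    set β := (a - 1).choose (k - 1) with hβ
    set p := (a - 1).choose k with hp
    set q := (b - 1).choose k with hq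
    have hca : a.choose k = β + p := choose_succ_pred (by omega) hk
    have hcb : b.choose k = α + q := choose_succ_pred (by omega) hk
    have hwit : ∀ X : Finset (Fin (a + b)), ∀ s t : ℕ, s ≤ (ins F X).card → t ≤ (ins F Xᶜ).card →
        ∃ A ⊆ F, ∃ B ⊆ F, A.card = s ∧ B.card = t ∧
          ((A.biUnion id) ∩ (B.biUnion id)) = ∅ := by
      intro X s t hs ht
      obtain ⟨A, hA, hAc⟩ := exists_subset_card_eq hs
      obtain ⟨B, hB, hBc⟩ := exists_subset_card_eq ht
      refine ⟨A, hA.trans (filter_subset _ _), B, hB.trans (filter_subset _ _), hAc, hBc, ?_⟩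
      rw [← disjoint_iff_inter_eq_empty, disjoint_left]
      intro x hxA hxB
      rw [mem_biUnion] at hxA hxB
      obtain ⟨S, hS, hxS⟩ := hxA
      obtain ⟨T, hT, hxT⟩ := hxB
      have h1 : x ∈ X := (mem_filter.1 (hA hS)).2 hxS
      have h2 : x ∈ Xᶜ := (mem_filter.1 (hB hT)).2 hxT
      exact (mem_compl.1 h2) h1
    -- local inequality
    have hloc : ∀ X ∈ powersetCard a (univ : Finset (Fin (a + b))),
        α * (ins F X).card + β * (ins F Xᶜ).card ≤ α * p + β * q + α * β := by
      intro X hX
      have hXc : X.card = a := (mem_powersetCard.1 hX).2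
      have hXcc : Xᶜ.card = b := by rw [card_compl, Fintype.card_fin, hXc]; omega
      have hf := card_ins_le hF X
      have hg := card_ins_le hF Xᶜ
      rw [hXc, hca] at hf
      rw [hXcc, hcb] at hg
      set f := (ins F X).card with hfdef
      set g := (ins F Xᶜ).card with hgdef
      rcases hv with hv | ⟨hab', hv1, hv2⟩
      · -- either `f ≤ p` or `g ≤ q`
        have hor : f ≤ p ∨ g ≤ q := by
          by_contra hcon
          push Not at hcon
          obtain ⟨A, hA, B, hB, hAc, hBc, hAB⟩ := hwit X (p + 1) v hcon.1 (by rw [hv]; exact hcon.2)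
          have := hui A hA B hB hAc hBc
          rw [hAB] at this
          exact not_nonempty_empty this
        rcases hor with h | h
        · calc α * f + β * g ≤ α * p + β * (α + q) := by gcongr
            _ = α * p + β * q + α * β := by ring
        · calc α * f + β * g ≤ α * (β + p) + β * q := by gcongr
            _ = α * p + β * q + α * β := by ring
      · have hαβ : α = β := by rw [hα, hβ, hab']
        have hpq : p = q := by rw [hp, hq, hab']
        have hsum : f + g ≤ p + (β + p) := by
          by_contra hcon
          push Not at hcon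
          have hf' : p + 1 ≤ f := by omega
          have hg' : p + 1 ≤ g := by omega
          rw [hca] at hv2
          have hor : v ≤ f ∨ v ≤ g := by omega
          rcases hor with h | h
          · obtain ⟨A, hA, B, hB, hAc, hBc, hAB⟩ := hwit X v (p + 1) h hg'
            have := hui B hB A hA hBc hAc
            rw [inter_comm, hAB] at this
            exact not_nonempty_empty this
          · obtain ⟨A, hA, B, hB, hAc, hBc, hAB⟩ := hwit X (p + 1) v hf' h
            have := hui A hA B hB hAc hBc
            rw [hAB] at this
            exact not_nonempty_empty this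
        rw [hαβ, ← hpq]
        calc β * f + β * g = β * (f + g) := by ring
          _ ≤ β * (p + (β + p)) := by gcongr
          _ = β * p + β * p + β * β := by ring
    have hbaseval : ∀ X ∈ powersetCard a (univ : Finset (Fin (a + b))),
        α * (ins (base k z) X).card + β * (ins (base k z) Xᶜ).card =
          α * p + β * q + α * β := by
      intro X hX
      have hXc : X.card = a := (mem_powersetCard.1 hX).2
      have hXcc : Xᶜ.card = b := by rw [card_compl, Fintype.card_fin, hXc]; omega
      rw [ins_base, ins_base, card_powersetCard, card_powersetCard]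
      by_cases hz : z ∈ X
      · have hz' : z ∉ Xᶜ := by simpa using hz
        rw [card_erase_of_mem hz, erase_eq_of_notMem hz', hXc, hXcc, hcb]
        ring
      · have hz' : z ∈ Xᶜ := by simpa using hz
        rw [card_erase_of_mem hz', erase_eq_of_notMem hz, hXc, hXcc, hca]
        ring
    have hS1 := sum_weights k a α β F hF ha
    have hS2 := sum_weights k a α β (base k z) hbase ha
    have hle : F.card * (α * (a + b - k).choose (a - k) + β * (a + b - k).choose a) ≤
        (base k z).card * (α * (a + b - k).choose (a - k) + β * (a + b - k).choose a) := by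
      rw [← hS1, ← hS2]
      refine sum_le_sum fun X hX => ?_
      rw [hbaseval X hX]
      exact hloc X hX
    refine Nat.le_of_mul_le_mul_right hle ?_
    have h1 : 0 < α := Nat.choose_pos (by omega)
    have h2 : 0 < (a + b - k).choose (a - k) := Nat.choose_pos (by omega)
    positivity

end Pool.Agent.Results.MP_fffc5a_co.BalancedExact
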