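import Mathlib
import Pool.Agent.Lib.MP_fffc5a_co.Deg
import Pool.Agent.Lib.MP_fffc5a_co.Lower

/-!
The case `u = 1`: `m(n,k,1,v) = C(n-1,k-1)` as soon as `6 n ^ 6 (v - 1) < C(n-k,k)`, `n > 2 k`.
-/

set_option autoImplicit false

open Finset

namespace Pool.Agent.Results.MP_fffc5a_co.OneAgainstMany

open Pool.Agent.Lib.MP_fffc5a_co

/-- `F` is `(u, v)`-union-intersecting: the union of any `u` distinct members meets the union of
any `v` distinct members. -/
def UnionIntersecting {n : ℕ} (u v : ℕ) (F : Finset (Finset (Fin n))) : Prop :=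
  ∀ A ⊆ F, ∀ B ⊆ F, A.card = u → B.card = v → ((A.biUnion id) ∩ (B.biUnion id)).Nonempty

/-- `m n k u v` is the maximum size of a `(u, v)`-union-intersecting family of `k`-element subsets
of an `n`-element set. -/
noncomputable def m (n k u v : ℕ) : ℕ :=
  sSup {c : ℕ | ∃ F : Finset (Finset (Fin n)),
    (∀ s ∈ F, s.card = k) ∧ UnionIntersecting u v F ∧ F.card = c}

lemma unionIntersecting_iff {n u v : ℕ} {F : Finset (Finset (Fin n))} :
    UnionIntersecting u v F ↔ UI u v F := by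
  unfold UnionIntersecting UI
  simp only [not_disjoint_iff_nonempty_inter]

lemma m_eq {n k v : ℕ} (hk : 1 ≤ k) (hn : 2 * k < n) (hv : 1 ≤ v)
    (h : 6 * n ^ 6 * (v - 1) < (n - k).choose k) : m n k 1 v = (n - 1).choose (k - 1) := by
  apply IsGreatest.csSup_eq
  constructor
  · have hne : Nonempty (Fin n) := ⟨⟨0, by omega⟩⟩
    obtain ⟨F, h3, h4, h5⟩ := lower_basic (α := Fin n) (u := 1) (v := v) (k := k) hk
      le_rfl hv (Nat.zero_le _)
    rw [Fintype.card_fin] at h5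
    exact ⟨F, h3, unionIntersecting_iff.2 h4, h5⟩
  · rintro c ⟨F, h1, h2, rfl⟩
    exact degree_upper hk hn hv h F h1 (unionIntersecting_iff.1 h2)

/-- `m(n,k,1,v) = C(n-1,k-1)` whenever `n > 2k` and `6 n ^ 6 (v - 1) < C(n-k,k)`; in particular, for
fixed `v`, for all large `k` and all `n ≥ 2k + 7`. -/
theorem result :
    (∀ n k v : ℕ, 1 ≤ k → 2 * k < n → 1 ≤ v → 6 * n ^ 6 * (v - 1) < (n - k).choose k →
      m n k 1 v = (n - 1).choose (k - 1)) ∧
    (∀ v : ℕ, 1 ≤ v → ∃ k₀ : ℕ, ∀ k, k₀ ≤ k → ∀ n, 2 * k + 7 ≤ n →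
      m n k 1 v = (n - 1).choose (k - 1)) := by
  refine ⟨fun n k v hk hn hv h => m_eq hk hn hv h, fun v hv => ?_⟩
  obtain ⟨k₀, h⟩ := degree_num v
  exact ⟨max k₀ 1, fun k hk n hn => m_eq (le_trans (le_max_right _ _) hk) (by omega) hv
    (h k (le_trans (le_max_left _ _) hk) n hn)⟩

end Pool.Agent.Results.MP_fffc5a_co.OneAgainstMany
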