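import Mathlib
import Pool.Agent.Lib.MP_fffc5a_co.V.Upper
import Pool.Agent.Lib.MP_fffc5a_co.V.Low
import Pool.Agent.Lib.MP_fffc5a_co.Lower

/-!
The case `u ≥ 2`, `n > (u + 1) k`: the large-`n` value `C(n-1,k-1) + u - 1` is right as long as
`C(u) (v - 1) ≤ C(n-uk-1,k-1)`, and it is wrong for `v - 1 ≥ C(n-uk-1,k-1)`.
-/

set_option autoImplicit false

open Finset

namespace Pool.Agent.Results.MP_fffc5a_co.ThresholdMany

open Pool.Agent.Lib.MP_fffc5a_co

/-- `F` is `(u, v)`-union-intersecting: the union of any `u` distinct members meets the union of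
any `v` distinct members. -/
def UnionIntersecting {n : ℕ} (u v : ℕ) (F : Finset (Finset (Fin n))) : Prop :=
  ∀ A ⊆ F, ∀ B ⊆ F, A.card = u → B.card = v → ((A.biUnion id) ∩ (B.biUnion id)).Nonempty

/-- `m n k u v` is the maximum size of a `(u, v)`-union-intersecting family of `k`-element subsets
of an `n`-element set. -/
noncomputable def m (n k u v : ℕ) : ℕ :=
  sSup {c : ℕ | ∃ F : Finset (Finset (Fin n)),
    (∀ s ∈ F, s.card = k) ∧ UnionIntersecting u v F ∧ F.card = c}

lemma unionIntersecting_iff {n u v : ℕ} {F : Finset (Finset (Fin n))} :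
    UnionIntersecting u v F ↔ UI u v F := by
  unfold UnionIntersecting UI
  simp only [not_disjoint_iff_nonempty_inter]

lemma le_m {n k u v c : ℕ} (h : ∃ F : Finset (Finset (Fin n)), (∀ s ∈ F, s.card = k) ∧ UI u v F ∧
    c ≤ F.card) : c ≤ m n k u v := by
  obtain ⟨F, h1, h2, h3⟩ := h
  refine h3.trans (le_csSup ?_ ⟨F, h1, unionIntersecting_iff.2 h2, rfl⟩)
  refine ⟨Fintype.card (Finset (Fin n)), ?_⟩
  rintro c ⟨G, -, -, rfl⟩
  exact card_le_univ G

lemma choose_ge (a b : ℕ) (hb : 1 ≤ b) : a + 1 ≤ (a + b).choose b := by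
  obtain ⟨c, rfl⟩ : ∃ c, b = c + 1 := ⟨b - 1, by omega⟩
  induction a with
  | zero => simp
  | succ a ih =>
    have h1 : a + 1 + (c + 1) = (a + (c + 1)) + 1 := by omega
    rw [h1, Nat.choose_succ_succ']
    have h2 : 1 ≤ (a + (c + 1)).choose c := Nat.choose_pos (by omega)
    omega

/-- For every `u ≥ 2` the threshold in `v` for `m(n,k,u,v) = C(n-1,k-1) + u - 1` is
`C(n-uk-1,k-1)` up to a constant factor, for all `n > (u+1) k`. -/
theorem result :
    (∀ u : ℕ, 2 ≤ u → ∃ C : ℕ, ∀ n k v : ℕ, 1 ≤ k → (u + 1) * k < n → u ≤ v →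
      C * (v - 1) ≤ (n - u * k - 1).choose (k - 1) →
      m n k u v = (n - 1).choose (k - 1) + (u - 1)) ∧
    (∀ n k u v : ℕ, 1 ≤ k → 1 ≤ u → u ≤ v → (u + 1) * k ≤ n →
      (n - u * k - 1).choose (k - 1) ≤ v - 1 →
      (n - 1).choose (k - 1) + u ≤ m n k u v) := by
  refine ⟨fun u hu => ?_, fun n k u v hk hu huv hn h => le_m (V.low_many hk hu huv hn h)⟩
  obtain ⟨C, hC⟩ := V.upper hu
  refine ⟨C, fun n k v hk hn huv h => ?_⟩
  have h3 : 3 * k ≤ (u + 1) * k := Nat.mul_le_mul_right _ (by omega)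
  have h4 : u + 1 ≤ (u + 1) * k := Nat.le_mul_of_pos_right _ hk
  apply IsGreatest.csSup_eq
  constructor
  · have hne : Nonempty (Fin n) := ⟨⟨0, by omega⟩⟩
    obtain ⟨F, h5, h6, h7⟩ := lower_basic (α := Fin n) (u := u) (v := v) (k := k) hk
      (by omega) huv (by
        rw [Fintype.card_fin]
        have h8 := choose_ge (n - 1 - k) k hk
        have h9 : n - 1 - k + k = n - 1 := by omega
        rw [h9] at h8
        have h10 : (u + 1) * k = u * k + k := by ring
        have h11 : u ≤ u * k := Nat.le_mul_of_pos_right _ hk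
        omega)
    rw [Fintype.card_fin] at h7
    exact ⟨F, h5, unionIntersecting_iff.2 h6, h7⟩
  · rintro c ⟨F, h1, h2, rfl⟩
    exact hC n k v hk hn huv h F h1 (unionIntersecting_iff.1 h2)

end Pool.Agent.Results.MP_fffc5a_co.ThresholdMany
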